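import Pool.Agent.Helper39.FullMW.Basics

/-!
# Minimal configurations with an element which is not small
-/

set_option autoImplicit false
set_option linter.unusedSectionVars false

namespace Pool.Agent.Helper39.FullMW

open Pool.Agent.Helper30.Full Polynomial

universe u

noncomputable section

variable {p : ℕ} [Fact p.Prime] {d : ℕ} {M : Type u} [AddCommGroup M] [TopologicalSpace M]
  [IsTopologicalAddGroup M] [CompactSpace M] [T2Space M] {b : Act p d M}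

/-! ### normalisation -/

/-- generators of the submodule of small elements with common exponents -/
def Un (c : VC b) (i n : ℕ) : Prop :=
  ∃ s : Finset (Fin d → ℤ_[p]), Submodule.span ℤ_[p] (s : Set (Fin d → ℤ_[p])) = PS c ∧
    ∀ k ∈ s, Sm c k i n

lemma exists_Un (c : VC b) : ∃ i n, Un c i n := by
  obtain ⟨s, hs⟩ := (inferInstance : IsNoetherian ℤ_[p] (Fin d → ℤ_[p])).noetherian (PS c)
  have h1 : ∀ k ∈ s, cSmall c k := fun k hk => by
    have : k ∈ PS c := by rw [← hs]; exact Submodule.subset_span hk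
    exact this.2
  have h2 : ∀ t : Finset (Fin d → ℤ_[p]), (∀ k ∈ t, cSmall c k) → ∃ i n, ∀ k ∈ t, Sm c k i n := by
    classical
    intro t
    induction t using Finset.induction_on with
    | empty => exact fun _ => ⟨0, 0, fun k hk => absurd hk (Finset.notMem_empty k)⟩
    | insert a t _ ih =>
      intro ht
      obtain ⟨i, n, h3⟩ := ih fun k hk => ht k (Finset.mem_insert_of_mem hk)
      obtain ⟨i', n', h4⟩ := cSmall_iff.1 (ht a (Finset.mem_insert_self a t))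
      refine ⟨max i i', max n n', fun k hk => ?_⟩
      rcases Finset.mem_insert.1 hk with rfl | hk
      · exact (h4.mono_i (le_max_right i i')).mono_n (le_max_right n n')
      · exact ((h3 k hk).mono_i (le_max_left i i')).mono_n (le_max_left n n')
  obtain ⟨i, n, h3⟩ := h2 s h1
  exact ⟨i, n, s, hs, h3⟩

lemma Un.pm {c : VC b} {i n : ℕ} (h : Un c (i + 1) n) : Un c.pm i n := by
  obtain ⟨s, hs, h1⟩ := h
  refine ⟨s, ?_, fun k hk => Sm_pm (h1 k hk)⟩
  rw [hs]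
  ext k
  rw [mem_PS, mem_PS, cSmall_pm]
  exact Iff.rfl

lemma exists_Un0 (c₀ : VC b) : ∀ i : ℕ, ∀ c, Mn c₀ c → (∃ n, Un c i n) →
    ∃ c', Mn c₀ c' ∧ ∃ n, Un c' 0 n := by
  intro i
  induction i with
  | zero => exact fun c hc h => ⟨c, hc, h⟩
  | succ i ih =>
    rintro c hc ⟨n, h⟩
    exact ih c.pm hc.pm ⟨n, h.pm⟩

/-- small elements map `X1` to `p^2 X1 + X2` after multiplication by `p^a` -/
def SM (c : VC b) (a : ℕ) : Prop :=
  ∀ h ∈ c.S, cSmall c h → ∀ x ∈ c.X1, b.T (p ^ a • h) x ∈ J c 2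

lemma SM_of_Un {c : VC b} {n : ℕ} (h : Un c 0 n) : SM c (n + 1) := by
  obtain ⟨s, hs, h1⟩ := h
  have hp : 2 ≤ p := (Fact.out : p.Prime).two_le
  have hn : n ≤ p ^ n := (Nat.lt_pow_self hp).le
  -- the first step
  have h2 : ∀ k ∈ s, ∀ x ∈ c.X1, b.T (p ^ n • k) x ∈ J c 1 := by
    intro k hk x hx
    obtain ⟨y, hy, e⟩ := T_ppow_apply c n k hx
    rw [e]
    have h3 := (h1 k hk).mono_n hn x hx
    rw [pow_zero, one_smul] at h3
    refine (J c 1).add_mem h3 ?_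
    have h4 := self_J c 1 (T_in_X1 c k hy)
    rwa [pow_one] at h4
  -- the second step
  have h3 : ∀ k ∈ s, ∀ x ∈ c.X1, b.T (p ^ (n + 1) • k) x ∈ J c 2 := by
    intro k hk
    have h5 : ∀ x ∈ J c 1, b.T (p ^ n • k) x ∈ J c 2 := by
      intro x hx
      obtain ⟨y, hy, h6⟩ := mem_J.1 hx
      have e : b.T (p ^ n • k) x = p ^ 1 • b.T (p ^ n • k) y + b.T (p ^ n • k) (x - p ^ 1 • y) := by
        rw [map_sub, map_nsmul]; abel
      rw [e]
      exact (J c 2).add_mem (smul_J c 1 1 (h2 k hk y hy)) (X2_le_J c _ (T_in_X2 c _ h6))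
    intro x hx
    obtain ⟨y, hy, e⟩ := T_ppow_apply c 1 (p ^ n • k) hx
    rw [pow_one] at e
    rw [pow_succ', mul_smul, e]
    refine (J c 2).add_mem ?_ ?_
    · have e2 : (b.T (p ^ n • k) ^ p) x =
          (b.T (p ^ n • k) ^ (p - 2)) (b.T (p ^ n • k) (b.T (p ^ n • k) x)) := by
        have e3 : b.T (p ^ n • k) ^ p = b.T (p ^ n • k) ^ (p - 2) * (b.T (p ^ n • k) *
            b.T (p ^ n • k)) := by
          rw [← pow_two, ← pow_add, Nat.sub_add_cancel hp]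
        rw [e3]
        rfl
      rw [e2]
      exact Tpow_J c 2 _ _ (h5 _ (h2 k hk x hx))
    · have h7 := smul_J c 1 1 (h2 k hk y hy)
      rwa [pow_one] at h7
  -- the span
  have h4 : PS c ≤ (subm b (c.X1 : Set M) (J c 2) (closed_J c 2) (inv_J c 2)).comap
      (LinearMap.lsmul ℤ_[p] (Fin d → ℤ_[p]) ((p ^ (n + 1) : ℕ) : ℤ_[p])) := by
    rw [← hs, Submodule.span_le]
    intro k hk
    show ((p ^ (n + 1) : ℕ) : ℤ_[p]) • k ∈ subm b (c.X1 : Set M) (J c 2) (closed_J c 2) (inv_J c 2)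
    rw [Nat.cast_smul_eq_nsmul]
    exact (mem_subm b).2 (h3 k hk)
  intro h hh hsm x hx
  have h5 : ((p ^ (n + 1) : ℕ) : ℤ_[p]) • h ∈
    subm b (c.X1 : Set M) (J c 2) (closed_J c 2) (inv_J c 2) := h4 ⟨hh, hsm⟩
  rw [Nat.cast_smul_eq_nsmul] at h5
  exact (mem_subm b).1 h5 x hx

lemma SM.pow {c : VC b} {a : ℕ} (h : SM c (a + 1)) : SM c.pow a := by
  intro k hk hsm x hx
  obtain ⟨l, hl, rfl⟩ := VC.mem_pow.1 hk
  rw [smul_smul, ← pow_succ]
  exact h l hl (cSmall_mul.1 hsm) x hx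

lemma SM.pow0 {c : VC b} (h : SM c 0) : SM c.pow 0 := by
  intro k hk hsm x hx
  obtain ⟨l, hl, rfl⟩ := VC.mem_pow.1 hk
  exact h (p • l) (c.S.smul_of_tower_mem p hl) hsm x hx

lemma exists_SM0 (c₀ : VC b) : ∀ a : ℕ, ∀ c, Mn c₀ c → SM c a → ∃ c', Mn c₀ c' ∧ SM c' 0 := by
  intro a
  induction a with
  | zero => exact fun c hc h => ⟨c, hc, h⟩
  | succ a ih => exact fun c hc h => ih c.pow hc.pow h.pow

/-- no torsion -/
def TF (c : VC b) (e : ℕ) : Prop :=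
  ∀ k ∈ c.S, cTriv c (p ^ (e + 1) • k) → cTriv c (p ^ e • k)

lemma exists_TF (c : VC b) : ∃ e, TF c e := by
  let L : ℕ →o Submodule ℤ_[p] (Fin d → ℤ_[p]) :=
    { toFun := fun i => (subm b (c.X1 : Set M) c.X2 c.c2 c.i2).comap
        (LinearMap.lsmul ℤ_[p] (Fin d → ℤ_[p]) ((p ^ i : ℕ) : ℤ_[p]))
      monotone' := by
        refine monotone_nat_of_le_succ fun i k hk => ?_
        have h1 : ((p ^ i : ℕ) : ℤ_[p]) • k ∈ subm b (c.X1 : Set M) c.X2 c.c2 c.i2 := hk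
        show ((p ^ (i + 1) : ℕ) : ℤ_[p]) • k ∈ subm b (c.X1 : Set M) c.X2 c.c2 c.i2
        rw [pow_succ', Nat.cast_mul, mul_smul]
        exact Submodule.smul_mem _ _ h1 }
  obtain ⟨e, he⟩ := (monotone_stabilizes_iff_noetherian.2
    (inferInstance : IsNoetherian ℤ_[p] (Fin d → ℤ_[p]))) L
  refine ⟨e, fun k _ h1 => ?_⟩
  have h2 : k ∈ L (e + 1) := by
    show ((p ^ (e + 1) : ℕ) : ℤ_[p]) • k ∈ subm b (c.X1 : Set M) c.X2 c.c2 c.i2
    rw [Nat.cast_smul_eq_nsmul]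
    exact (mem_subm b).2 h1
  rw [← he (e + 1) (Nat.le_succ e)] at h2
  have h3 : ((p ^ e : ℕ) : ℤ_[p]) • k ∈ subm b (c.X1 : Set M) c.X2 c.c2 c.i2 := h2
  rw [Nat.cast_smul_eq_nsmul] at h3
  exact (mem_subm b).1 h3

lemma TF.pow {c : VC b} {e : ℕ} (h : TF c (e + 1)) : TF c.pow e := by
  intro k hk h1
  obtain ⟨l, hl, rfl⟩ := VC.mem_pow.1 hk
  rw [smul_smul, ← pow_succ] at h1 ⊢
  exact h l hl h1

lemma exists_TF0 (c₀ : VC b) : ∀ e : ℕ, ∀ c, Mn c₀ c → SM c 0 → TF c e →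
    ∃ c', Mn c₀ c' ∧ SM c' 0 ∧ TF c' 0 := by
  intro e
  induction e with
  | zero => exact fun c hc h h' => ⟨c, hc, h, h'⟩
  | succ e ih => exact fun c hc h h' => ih c.pow hc.pow h.pow0 h'.pow

/-- normal form -/
lemma exists_normal (c₀ : VC b) (h : ∃ c, Mn c₀ c) : ∃ c, Mn c₀ c ∧ SM c 0 ∧ TF c 0 := by
  obtain ⟨c, hc⟩ := h
  obtain ⟨i, n, h1⟩ := exists_Un c
  obtain ⟨c1, hc1, n1, h2⟩ := exists_Un0 c₀ i c hc ⟨n, h1⟩
  obtain ⟨c2, hc2, h3⟩ := exists_SM0 c₀ _ c1 hc1 (SM_of_Un h2)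
  obtain ⟨e, he⟩ := exists_TF c2
  exact exists_TF0 c₀ e c2 hc2 h3 he

/-! ### iteration of `pm` -/

/-- `pm` iterated -/
def pmI (c : VC b) : ℕ → VC b
  | 0 => c
  | i + 1 => (pmI c i).pm

lemma pmI_reach {c₀ c : VC b} (h : Reach c₀ c) (i : ℕ) : Reach c₀ (pmI c i) := by
  induction i with
  | zero => exact h
  | succ i ih => exact ih.pm

lemma pmI_S (c : VC b) (i : ℕ) : (pmI c i).S = c.S := by
  induction i with
  | zero => rfl
  | succ i ih => exact ih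

lemma pmI_X2 (c : VC b) (i : ℕ) : (pmI c i).X2 = c.X2 := by
  induction i with
  | zero => rfl
  | succ i ih => exact ih

lemma pmI_J (c : VC b) (i j : ℕ) (x : M) : x ∈ J (pmI c i) j ↔ x ∈ J c (i + j) := by
  induction i generalizing j with
  | zero => rw [zero_add]; exact Iff.rfl
  | succ i ih =>
    show x ∈ J (pmI c i).pm j ↔ _
    rw [J_pm, ih]
    have e : i + (j + 1) = i + 1 + j := by omega
    rw [e]

lemma J_zero (c : VC b) (x : M) : x ∈ J c 0 ↔ x ∈ c.X1 := by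
  constructor
  · exact J_le_X1 c 0
  · intro hx
    have := self_J c 0 hx
    rwa [pow_zero, one_smul] at this

lemma pmI_X1 (c : VC b) (i : ℕ) (x : M) : x ∈ (pmI c i).X1 ↔ x ∈ J c i := by
  rw [← J_zero, pmI_J]; rfl

lemma sect_X2 (c : VC b) (x : M) : x ∈ c.sect.X2 ↔ x ∈ J c 1 := by
  rw [VC.mem_sect, mem_J, pow_one]

/-! ### the main theorem -/

lemma unif (S S' : Submodule ℤ_[p] (Fin d → ℤ_[p])) (hle : S' ≤ S)
    (hrk : Module.finrank ℤ_[p] S ≤ Module.finrank ℤ_[p] S') :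
    ∃ t : ℕ, ∀ k ∈ S, p ^ t • k ∈ S' := by
  have h0 := Pool.Agent.Helper10.ProC.stmtRank p d S' S hle hrk
  obtain ⟨s, hs⟩ := (inferInstance : IsNoetherian ℤ_[p] (Fin d → ℤ_[p])).noetherian S
  have h1 : ∀ k ∈ s, ∃ t : ℕ, (p : ℤ_[p]) ^ t • k ∈ S' := fun k hk => h0 k (by
    rw [← hs]; exact Submodule.subset_span hk)
  have h2 : ∀ u : Finset (Fin d → ℤ_[p]), (∀ k ∈ u, ∃ t : ℕ, (p : ℤ_[p]) ^ t • k ∈ S') →
      ∃ t : ℕ, ∀ k ∈ u, (p : ℤ_[p]) ^ t • k ∈ S' := by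
    classical
    intro u
    induction u using Finset.induction_on with
    | empty => exact fun _ => ⟨0, fun k hk => absurd hk (Finset.notMem_empty k)⟩
    | insert a u _ ih =>
      intro hu
      obtain ⟨t, h3⟩ := ih fun k hk => hu k (Finset.mem_insert_of_mem hk)
      obtain ⟨t', h4⟩ := hu a (Finset.mem_insert_self a u)
      have h5 : ∀ (t'' T : ℕ) (k : Fin d → ℤ_[p]), t'' ≤ T → (p : ℤ_[p]) ^ t'' • k ∈ S' →
          (p : ℤ_[p]) ^ T • k ∈ S' := by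
        intro t'' T k hT hk
        have e : (p : ℤ_[p]) ^ T • k = (p : ℤ_[p]) ^ (T - t'') • (p : ℤ_[p]) ^ t'' • k := by
          rw [smul_smul, ← pow_add, Nat.sub_add_cancel hT]
        rw [e]
        exact S'.smul_mem _ hk
      refine ⟨max t t', fun k hk => ?_⟩
      rcases Finset.mem_insert.1 hk with rfl | hk
      · exact h5 _ _ _ (le_max_right t t') h4
      · exact h5 _ _ _ (le_max_left t t') (h3 k hk)
  obtain ⟨t, ht⟩ := h2 s h1
  refine ⟨t, ?_⟩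
  have h3 : S ≤ S'.comap (LinearMap.lsmul ℤ_[p] (Fin d → ℤ_[p]) ((p ^ t : ℕ) : ℤ_[p])) := by
    rw [← hs, Submodule.span_le]
    intro k hk
    show ((p ^ t : ℕ) : ℤ_[p]) • k ∈ S'
    rw [Nat.cast_pow]
    exact ht k hk
  intro k hk
  have h4 : ((p ^ t : ℕ) : ℤ_[p]) • k ∈ S' := h3 hk
  rwa [Nat.cast_smul_eq_nsmul] at h4

theorem dom_of (hB : StmtBaire.{u}) {c₀ c : VC b} (hc : Mn c₀ c) (u : Fin d → ℤ_[p])
    (hu : u ∈ c.S) (hus : ¬ cSmall c u) : ∃ m : ℕ, ∀ k ∈ c.S,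
    ∀ x ∈ c.X1, ∃ y ∈ c.X1, b.T (p ^ m • k) x - b.T u y ∈ c.X2 := by
  -- for every `x`
  have h1 : ∀ x ∈ c.X1, ∃ t : ℕ, ∀ k ∈ c.S, b.T (p ^ t • k) x ∈ imS c (b.T u) := by
    intro x hx
    have h2 : u ∈ (c.stab u x).S := VC.mem_stab.2 ⟨hu, x, hx, by
      rw [sub_self]; exact c.X2.zero_mem⟩
    have h3 := hc.min (c.stab u x) (hc.reach.stab u x) ⟨u, h2, hus⟩
    have h4 : SX (c.stab u x) = SX c := by
      ext k
      rw [mem_SX, mem_SX, VC.mem_stab]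
      constructor
      · rintro ⟨⟨hk, _⟩, h5⟩; exact ⟨hk, h5⟩
      · rintro ⟨hk, h5⟩
        exact ⟨⟨hk, 0, c.X1.zero_mem, by rw [map_zero, sub_zero]; exact h5 x hx⟩, h5⟩
    have h5 : (c.stab u x).S ≤ c.S := fun k hk => (VC.mem_stab.1 hk).1
    have h6 : Module.finrank ℤ_[p] (SX c) ≤ Module.finrank ℤ_[p] (c.stab u x).S := by
      rw [← h4]
      refine Submodule.finrank_mono fun k hk => (mem_SX.1 hk).1
    have h7 : Module.finrank ℤ_[p] (SX c) ≤ Module.finrank ℤ_[p] c.S :=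
      Submodule.finrank_mono fun k hk => (mem_SX.1 hk).1
    have h8 : Module.finrank ℤ_[p] c.S ≤ Module.finrank ℤ_[p] (c.stab u x).S := by
      unfold rk at h3
      rw [h4] at h3
      omega
    obtain ⟨t, ht⟩ := unif _ _ h5 h8
    refine ⟨t, fun k hk => ?_⟩
    obtain ⟨_, y, hy, h9⟩ := VC.mem_stab.1 (ht k hk)
    exact mem_imS.2 ⟨y, hy, h9⟩
  -- Baire
  have hI := closed_imS c (cont_T b u)
  have hinv : ∀ k, ∀ x ∈ imS c (b.T u), b.σ k x ∈ imS c (b.T u) :=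
    inv_imS c (fun k x => (T_comm_σ_apply b u k x).symm)
  have : CompactSpace c.X1 := isCompact_iff_compactSpace.1 c.c1.isCompact
  let A : ℕ → AddSubgroup c.X1 := fun t =>
    { carrier := {x | ∀ k ∈ c.S, b.T (p ^ t • k) (x : M) ∈ imS c (b.T u)}
      zero_mem' := fun k _ => by
        show b.T (p ^ t • k) (0 : M) ∈ imS c (b.T u)
        rw [map_zero]; exact AddSubgroup.zero_mem _
      add_mem' := fun {x y} hx hy k hk => by
        show b.T (p ^ t • k) ((x : M) + y) ∈ imS c (b.T u)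
        rw [map_add]; exact AddSubgroup.add_mem _ (hx k hk) (hy k hk)
      neg_mem' := fun {x} hx k hk => by
        show b.T (p ^ t • k) (-(x : M)) ∈ imS c (b.T u)
        rw [map_neg]; exact AddSubgroup.neg_mem _ (hx k hk) }
  obtain ⟨m, hm⟩ := hB c.X1 A (by
    refine monotone_nat_of_le_succ fun t x hx k hk => ?_
    have e : p ^ (t + 1) • k = p ^ t • (p • k) := by rw [smul_smul, ← pow_succ]
    rw [e]
    exact hx (p • k) (c.S.smul_of_tower_mem p hk)) (by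
    intro t
    have e : ((A t : AddSubgroup c.X1) : Set c.X1) = ⋂ k ∈ c.S,
        (fun x : c.X1 => b.T (p ^ t • k) (x : M)) ⁻¹' (imS c (b.T u) : Set M) := by
      ext x
      rw [Set.mem_iInter₂]
      exact Iff.rfl
    rw [e]
    exact isClosed_biInter fun k _ => hI.preimage ((cont_T b _).comp continuous_subtype_val)) (by
    intro x
    exact h1 x x.2)
  exact ⟨m, fun k hk x hx => mem_imS.1 (hm ⟨x, hx⟩ k hk)⟩

theorem quo_of {c₀ c : VC b} (hc : Mn c₀ c) (htf : TF c 0) (h : Fin d → ℤ_[p]) (hh : h ∈ c.S)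
    (hnt : ¬ cTriv c h) (g : Fin d → ℤ_[p]) (hg : g ∈ c.S) : ∃ i n : ℕ, ∀ x ∈ c.X1,
    ∃ y ∈ c.X1, ∃ z ∈ c.X1, (b.T g ^ n) (p ^ i • x) - p ^ (i + 1) • y - b.T h z ∈ c.X2 := by
  by_contra hcon
  have h1 : ¬ cSmall (c.quo h) g := by
    rintro ⟨i, n, h2⟩
    refine hcon ⟨i, n, fun x hx => ?_⟩
    obtain ⟨y, hy, h3⟩ := h2 x hx
    obtain ⟨z, hz, h4⟩ := mem_imS.1 (show _ ∈ imS c (b.T h) from h3)
    exact ⟨y, hy, z, hz, h4⟩
  have h2 := hc.min (c.quo h) (hc.reach.quo h) ⟨g, hg, h1⟩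
  have h3 : SX c ≤ SX (c.quo h) := by
    intro k hk
    rw [mem_SX] at hk ⊢
    exact ⟨hk.1, fun x hx => X2_le_imS c _ (hk.2 x hx)⟩
  have h4 : h ∈ SX (c.quo h) := by
    rw [mem_SX]
    exact ⟨hh, fun x hx => mem_imS.2 ⟨x, hx, by rw [sub_self]; exact c.X2.zero_mem⟩⟩
  have h5 : Module.finrank ℤ_[p] (SX (c.quo h)) ≤ Module.finrank ℤ_[p] c.S :=
    Submodule.finrank_mono fun k hk => (mem_SX.1 hk).1
  have h6 : Module.finrank ℤ_[p] (SX (c.quo h)) ≤ Module.finrank ℤ_[p] (SX c) := by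
    have h7 : Module.finrank ℤ_[p] (SX c) ≤ Module.finrank ℤ_[p] (SX (c.quo h)) :=
      Submodule.finrank_mono h3
    have h8 : rk (c.quo h) = Module.finrank ℤ_[p] c.S - Module.finrank ℤ_[p] (SX (c.quo h)) := rfl
    have h9 : rk c = Module.finrank ℤ_[p] c.S - Module.finrank ℤ_[p] (SX c) := rfl
    omega
  obtain ⟨t, ht⟩ := unif _ _ h3 h6
  have h7 : ∀ t : ℕ, cTriv c (p ^ t • h) → cTriv c h := by
    intro t
    induction t with
    | zero => intro h8; rwa [pow_zero, one_smul] at h8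
    | succ t ih =>
      intro h8
      refine ih ?_
      have h9 := htf (p ^ t • h) (c.S.smul_of_tower_mem _ hh)
      rw [zero_add, pow_one, pow_zero, one_smul, smul_smul, ← pow_succ'] at h9
      exact h9 h8
  exact hnt (h7 t (mem_SX.1 (ht h h4)).2)

theorem pf_StmtMW (hB : StmtBaire.{u}) : StmtMW.{u} := by
  intro p _ d M _ _ _ _ _ b c₀ hE hbig
  -- a minimal configuration
  have h0 : ∃ c, Mn c₀ c := by
    obtain ⟨c, hc, hmin⟩ := (measure (rk (b := b))).wf.has_min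
      {c | Reach c₀ c ∧ ∃ g ∈ c.S, ¬ cSmall c g} ⟨c₀, Reach.refl c₀, hbig⟩
    exact ⟨c, hc.1, hc.2, fun c' h1 h2 => not_lt.1 (hmin c' ⟨h1, h2⟩)⟩
  obtain ⟨c, hc, hsm, htf⟩ := exists_normal c₀ h0
  refine ⟨c, hc.reach, ?_, hc.big, fun u hu hus => dom_of hB hc u hu hus, ?_,
    fun h hh hnt g hg => quo_of hc htf h hh hnt g hg, ?_⟩
  · intro k hk h1
    have h2 := htf k hk
    rw [zero_add, pow_one, pow_zero, one_smul] at h2
    exact h2 h1
  · intro h hh h1 x hx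
    have h2 := hsm h hh h1 x hx
    rw [pow_zero, one_smul] at h2
    exact mem_J.1 h2
  · intro g hg i
    have h1 := hE (pmI c i).sect (pmI_reach hc.reach i).sect (by
      intro x hx
      rw [sect_X2]
      have h9 := self_J (pmI c i) 1 hx
      rwa [pow_one] at h9) g (by
      show g ∈ (pmI c i).S
      rw [pmI_S]; exact hg)
    unfold cUnb at h1
    push Not at h1
    obtain ⟨n, hn⟩ := h1
    refine ⟨n, fun x hx h2 => ?_⟩
    have h3 : p ^ i • x ∈ (pmI c i).sect.X1 := by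
      show p ^ i • x ∈ (pmI c i).X1
      rw [pmI_X1]
      exact self_J c i hx
    have h4 := hn _ h3
    rw [sect_X2, sect_X2, pmI_J, pmI_J, mem_J, mem_J] at h4
    exact h4 h2

end

end Pool.Agent.Helper39.FullMW
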