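import Pool.Agent.Helper30.Full.GoalsM
import Pool.Agent.Helper10.ProC.Mod

/-!
# Minimal configurations with an element which is not small: tools
-/

set_option autoImplicit false
set_option linter.unusedSectionVars false

namespace Pool.Agent.Helper39.FullMW

open Pool.Agent.Helper30.Full Polynomial

universe u

noncomputable section

variable {p : ℕ} [Fact p.Prime] {d : ℕ} {M : Type u} [AddCommGroup M] [TopologicalSpace M]
  [IsTopologicalAddGroup M] [CompactSpace M] [T2Space M] {b : Act p d M}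

omit [TopologicalSpace M] [IsTopologicalAddGroup M] [CompactSpace M] [T2Space M] in
lemma nat_apply (n : ℕ) (x : M) : ((n : ℕ) : AddMonoid.End M) x = n • x := by
  rw [← nsmul_one]; rfl

/-- `p^i X1 + X2` -/
def J (c : VC b) (i : ℕ) : AddSubgroup M := imS c ((p ^ i : ℕ) : AddMonoid.End M)

lemma mem_J {c : VC b} {i : ℕ} {x : M} : x ∈ J c i ↔ ∃ y ∈ c.X1, x - p ^ i • y ∈ c.X2 := by
  unfold J
  rw [mem_imS]
  simp only [nat_apply]

lemma closed_J (c : VC b) (i : ℕ) : IsClosed (J c i : Set M) := by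
  refine closed_imS c ?_
  simp only [nat_apply]
  exact continuous_nsmul _

lemma inv_J (c : VC b) (i : ℕ) : ∀ k, ∀ x ∈ J c i, b.σ k x ∈ J c i :=
  inv_imS c (fun k x => by rw [nat_apply, nat_apply, map_nsmul])

lemma T_J (c : VC b) (i : ℕ) (k : Fin d → ℤ_[p]) {x : M} (hx : x ∈ J c i) : b.T k x ∈ J c i :=
  (J c i).sub_mem (inv_J c i k x hx) hx

lemma Tpow_J (c : VC b) (i : ℕ) (k : Fin d → ℤ_[p]) (n : ℕ) {x : M} (hx : x ∈ J c i) :
    (b.T k ^ n) x ∈ J c i := Tpow_mem b _ k (fun _ hy => T_J c i k hy) n x hx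

lemma Tpow_X1 (c : VC b) (k : Fin d → ℤ_[p]) (n : ℕ) {x : M} (hx : x ∈ c.X1) :
    (b.T k ^ n) x ∈ c.X1 := Tpow_mem b _ k (fun _ hy => T_in_X1 c k hy) n x hx

lemma Tpow_X2 (c : VC b) (k : Fin d → ℤ_[p]) (n : ℕ) {x : M} (hx : x ∈ c.X2) :
    (b.T k ^ n) x ∈ c.X2 := Tpow_mem b _ k (fun _ hy => T_in_X2 c k hy) n x hx

lemma X2_le_J (c : VC b) (i : ℕ) {x : M} (hx : x ∈ c.X2) : x ∈ J c i := X2_le_imS c _ hx

lemma smul_J (c : VC b) (i j : ℕ) {x : M} (hx : x ∈ J c i) : p ^ j • x ∈ J c (i + j) := by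
  rw [mem_J] at hx ⊢
  obtain ⟨y, hy, h⟩ := hx
  refine ⟨y, hy, ?_⟩
  have e : p ^ j • x - p ^ (i + j) • y = p ^ j • (x - p ^ i • y) := by
    rw [smul_sub, smul_smul, ← pow_add, add_comm i j]
  rw [e]
  exact c.X2.nsmul_mem h _

lemma self_J (c : VC b) (i : ℕ) {x : M} (hx : x ∈ c.X1) : p ^ i • x ∈ J c i :=
  mem_J.2 ⟨x, hx, by rw [sub_self]; exact c.X2.zero_mem⟩

lemma J_le_X1 (c : VC b) (i : ℕ) {x : M} (hx : x ∈ J c i) : x ∈ c.X1 := by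
  obtain ⟨y, hy, h⟩ := mem_J.1 hx
  have := c.X1.add_mem (c.le h) (c.X1.nsmul_mem hy (p ^ i))
  rwa [sub_add_cancel] at this

lemma J_anti (c : VC b) {i j : ℕ} (hij : i ≤ j) {x : M} (hx : x ∈ J c j) : x ∈ J c i := by
  obtain ⟨y, hy, h⟩ := mem_J.1 hx
  refine mem_J.2 ⟨p ^ (j - i) • y, c.X1.nsmul_mem hy _, ?_⟩
  rw [smul_smul, ← pow_add, Nat.add_sub_cancel' hij]
  exact h

/-- `T_k^n (p^i X1) ⊆ p^(i+1) X1 + X2` -/
def Sm (c : VC b) (k : Fin d → ℤ_[p]) (i n : ℕ) : Prop :=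
  ∀ x ∈ c.X1, (b.T k ^ n) (p ^ i • x) ∈ J c (i + 1)

lemma cSmall_iff {c : VC b} {k : Fin d → ℤ_[p]} : cSmall c k ↔ ∃ i n, Sm c k i n := by
  unfold cSmall Sm
  simp only [mem_J]

lemma Sm.mono_n {c : VC b} {k : Fin d → ℤ_[p]} {i n n' : ℕ} (h : Sm c k i n) (hn : n ≤ n') :
    Sm c k i n' := by
  intro x hx
  have e : (b.T k ^ n') (p ^ i • x) = (b.T k ^ (n' - n)) ((b.T k ^ n) (p ^ i • x)) := by
    conv_lhs => rw [← Nat.sub_add_cancel hn, pow_add]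
    rfl
  rw [e]
  exact Tpow_J c _ k _ (h x hx)

lemma Sm.mono_i {c : VC b} {k : Fin d → ℤ_[p]} {i i' n : ℕ} (h : Sm c k i n) (hi : i ≤ i') :
    Sm c k i' n := by
  intro x hx
  have e : (b.T k ^ n) (p ^ i' • x) = p ^ (i' - i) • (b.T k ^ n) (p ^ i • x) := by
    rw [← map_nsmul, smul_smul, ← pow_add, Nat.sub_add_cancel hi]
  rw [e]
  have := smul_J c (i + 1) (i' - i) (h x hx)
  have e2 : i + 1 + (i' - i) = i' + 1 := by omega
  rwa [e2] at this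

/-! ### step (F1): `pm` -/

lemma pm_X1 {c : VC b} {x : M} : x ∈ c.pm.X1 ↔ x ∈ J c 1 := by
  rw [VC.mem_pm, mem_J, pow_one]

lemma J_pm {c : VC b} {i : ℕ} {x : M} : x ∈ J c.pm i ↔ x ∈ J c (i + 1) := by
  rw [mem_J, mem_J]
  constructor
  · rintro ⟨y, hy, h⟩
    obtain ⟨z, hz, h2⟩ := VC.mem_pm.1 hy
    refine ⟨z, hz, ?_⟩
    have e : x - p ^ (i + 1) • z = (x - p ^ i • y) + p ^ i • (y - p • z) := by
      rw [smul_sub, smul_smul, ← pow_succ]; abel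
    rw [e]
    exact c.X2.add_mem h (c.X2.nsmul_mem h2 _)
  · rintro ⟨y, hy, h⟩
    refine ⟨p • y, VC.mem_pm.2 ⟨y, hy, by rw [sub_self]; exact c.X2.zero_mem⟩, ?_⟩
    rw [smul_smul, ← pow_succ]
    exact h

lemma Sm_pm {c : VC b} {k : Fin d → ℤ_[p]} {i n : ℕ} (h : Sm c k (i + 1) n) : Sm c.pm k i n := by
  intro x hx
  rw [J_pm]
  obtain ⟨y, hy, h2⟩ := VC.mem_pm.1 hx
  have e : (b.T k ^ n) (p ^ i • x) = (b.T k ^ n) (p ^ (i + 1) • y) +
      p ^ i • (b.T k ^ n) (x - p • y) := by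
    rw [← map_nsmul, ← map_add, smul_sub, smul_smul, ← pow_succ]
    congr 1; abel
  rw [e]
  exact (J c _).add_mem (h y hy) ((J c _).nsmul_mem (X2_le_J c _ (Tpow_X2 c k n h2)) _)

lemma cSmall_pm {c : VC b} {k : Fin d → ℤ_[p]} : cSmall c.pm k ↔ cSmall c k := by
  rw [cSmall_iff, cSmall_iff]
  constructor
  · rintro ⟨i, n, h⟩
    refine ⟨i + 1, n, fun x hx => ?_⟩
    have h1 := h (p • x) (VC.mem_pm.2 ⟨x, hx, by rw [sub_self]; exact c.X2.zero_mem⟩)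
    rw [J_pm, smul_smul, ← pow_succ] at h1
    exact h1
  · rintro ⟨i, n, h⟩
    exact ⟨i, n, Sm_pm (h.mono_i (Nat.le_succ i))⟩

lemma pm_le {c : VC b} {x : M} (hx : x ∈ c.pm.X1) : x ∈ c.X1 := by
  rw [pm_X1] at hx; exact J_le_X1 c 1 hx

lemma cTriv_pm {c : VC b} {k : Fin d → ℤ_[p]} (h : cTriv c k) : cTriv c.pm k :=
  fun x hx => h x (pm_le hx)

/-! ### step (F2): `pow` -/

/-- `T_{qk} x = T_k^q x + p y` -/
lemma T_ppow_apply (c : VC b) (j : ℕ) (k : Fin d → ℤ_[p]) {x : M} (hx : x ∈ c.X1) :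
    ∃ y ∈ c.X1, b.T (p ^ j • k) x = (b.T k ^ p ^ j) x + p • b.T k y := by
  obtain ⟨P, hP⟩ := T_ppow b j k
  refine ⟨(aeval (b.T k) P) x, aeval_mem b _ k (fun _ hy => T_in_X1 c k hy) P x hx, ?_⟩
  rw [hP]; rfl

lemma Tpow_ppow (c : VC b) (j : ℕ) (k : Fin d → ℤ_[p]) (n : ℕ) {x : M} (hx : x ∈ c.X1) :
    ∃ y ∈ c.X1, (b.T (p ^ j • k) ^ n) x = (b.T k ^ (p ^ j * n)) x + p • y := by
  induction n with
  | zero => exact ⟨0, c.X1.zero_mem, by simp⟩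
  | succ n ih =>
    obtain ⟨y, hy, e⟩ := ih
    obtain ⟨z, hz, e2⟩ := T_ppow_apply c j k (Tpow_X1 c k (p ^ j * n) hx)
    refine ⟨b.T k z + b.T (p ^ j • k) y, c.X1.add_mem (T_in_X1 c _ hz) (T_in_X1 c _ hy), ?_⟩
    have e3 : (b.T (p ^ j • k) ^ (n + 1)) x = b.T (p ^ j • k) ((b.T (p ^ j • k) ^ n) x) := by
      rw [pow_succ']; rfl
    have e4 : (b.T k ^ (p ^ j * (n + 1))) x = (b.T k ^ p ^ j) ((b.T k ^ (p ^ j * n)) x) := by
      rw [mul_add, mul_one, add_comm, pow_add]; rfl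
    rw [e3, e, map_add, e2, e4, map_nsmul, smul_add]
    abel

lemma cSmall_mul {c : VC b} {k : Fin d → ℤ_[p]} : cSmall c (p • k) ↔ cSmall c k := by
  have key : ∀ n i : ℕ, ∀ x ∈ c.X1, ∃ y ∈ c.X1, (b.T (p • k) ^ n) (p ^ i • x) =
      (b.T k ^ (p * n)) (p ^ i • x) + p ^ (i + 1) • y := by
    intro n i x hx
    obtain ⟨y, hy, e⟩ := Tpow_ppow c 1 k n hx
    rw [pow_one] at e
    refine ⟨y, hy, ?_⟩
    rw [map_nsmul, map_nsmul, e, smul_add, smul_smul, ← pow_succ]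
  rw [cSmall_iff, cSmall_iff]
  constructor
  · rintro ⟨i, n, h⟩
    refine ⟨i, p * n, fun x hx => ?_⟩
    obtain ⟨y, hy, e⟩ := key n i x hx
    have e2 : (b.T k ^ (p * n)) (p ^ i • x) =
      (b.T (p • k) ^ n) (p ^ i • x) - p ^ (i + 1) • y := by rw [e]; abel
    rw [e2]
    exact (J c _).sub_mem (h x hx) (self_J c _ hy)
  · rintro ⟨i, n, h⟩
    refine ⟨i, n, fun x hx => ?_⟩
    obtain ⟨y, hy, e⟩ := key n i x hx
    rw [e]
    have hp : 1 ≤ p := (Fact.out : p.Prime).one_lt.le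
    exact (J c _).add_mem (h.mono_n (Nat.le_mul_of_pos_left n hp) x hx) (self_J c _ hy)

lemma cSmall_ppow {c : VC b} {k : Fin d → ℤ_[p]} (j : ℕ) : cSmall c (p ^ j • k) ↔ cSmall c k := by
  induction j with
  | zero => rw [pow_zero, one_smul]
  | succ j ih => rw [pow_succ', mul_smul, cSmall_mul, ih]

/-! ### step (F3) -/

lemma small_add_aux (Q : AddSubgroup M) (inv : ∀ k, ∀ y ∈ Q, b.σ k y ∈ Q) (h h' : Fin d → ℤ_[p]) :
    ∀ N a a' : ℕ, a + a' = N → ∀ z, (b.T h ^ a) z ∈ Q → (b.T h' ^ a') z ∈ Q →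
      (b.T (h + h') ^ N) z ∈ Q := by
  have hT : ∀ k, ∀ y ∈ Q, b.T k y ∈ Q := fun k y hy => Q.sub_mem (inv k y hy) hy
  intro N
  induction N with
  | zero =>
    intro a a' e z h1 _
    have ha : a = 0 := by omega
    subst ha
    exact h1
  | succ N ih =>
    intro a a' e z h1 h2
    rcases Nat.eq_zero_or_pos a with ha | ha
    · subst ha
      exact Tpow_mem b Q _ (hT _) _ z h1
    rcases Nat.eq_zero_or_pos a' with ha' | ha'
    · subst ha'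
      exact Tpow_mem b Q _ (hT _) _ z h2
    have hc : ∀ (k l : Fin d → ℤ_[p]) (n : ℕ) (y : M), (b.T k ^ n) (b.T l y) = b.T l ((b.T k ^ n) y) :=
      fun k l n y => congrArg (fun f : AddMonoid.End M => f y) ((T_comm b k l).pow_left n)
    have hs : ∀ (k l : Fin d → ℤ_[p]) (n : ℕ) (y : M), (b.T k ^ n) (b.σ l y) = b.σ l ((b.T k ^ n) y) :=
      fun k l n y => congrArg (fun f : AddMonoid.End M => f y) ((T_comm_σ b k l).pow_left n)
    have e1 : (b.T (h + h') ^ (N + 1)) z =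
        (b.T (h + h') ^ N) (b.T h z) + (b.T (h + h') ^ N) (b.σ h (b.T h' z)) := by
      rw [pow_succ, ← map_add, ← T_add_apply]; rfl
    rw [e1]
    obtain ⟨a1, rfl⟩ : ∃ a1, a = a1 + 1 := ⟨a - 1, by omega⟩
    obtain ⟨a2, rfl⟩ : ∃ a2, a' = a2 + 1 := ⟨a' - 1, by omega⟩
    refine Q.add_mem (ih a1 (a2 + 1) (by omega) _ ?_ ?_) (ih (a1 + 1) a2 (by omega) _ ?_ ?_)
    · rw [pow_succ] at h1; exact h1
    · rw [hc]; exact hT _ _ h2
    · rw [hs, hc]; exact inv _ _ (hT _ _ h1)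
    · rw [hs]
      rw [pow_succ] at h2
      exact inv _ _ h2

lemma cSmall_add {c : VC b} {h h' : Fin d → ℤ_[p]} (h1 : cSmall c h) (h2 : cSmall c h') :
    cSmall c (h + h') := by
  rw [cSmall_iff] at *
  obtain ⟨i, n, h1⟩ := h1
  obtain ⟨i', n', h2⟩ := h2
  have h1 := h1.mono_i (le_max_left i i')
  have h2 := h2.mono_i (le_max_right i i')
  exact ⟨max i i', n + n', fun x hx => small_add_aux _ (inv_J c _) h h' _ n n' rfl _ (h1 x hx)
    (h2 x hx)⟩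

/-- `T_{αh} X1 ⊆ T_h X1 + X2` -/
lemma T_smul_imS (c : VC b) (α : ℤ_[p]) (h : Fin d → ℤ_[p]) {x : M} (hx : x ∈ c.X1) :
    b.T (α • h) x ∈ imS c (b.T h) := by
  have h1 : h ∈ subm b (c.X1 : Set M) (imS c (b.T h)) (closed_imS c (cont_T b h))
      (inv_imS c (fun k x => (T_comm_σ_apply b h k x).symm)) := by
    rw [mem_subm]
    intro z hz
    exact mem_imS.2 ⟨z, hz, by rw [sub_self]; exact c.X2.zero_mem⟩
  exact (mem_subm b).1 (Submodule.smul_mem _ α h1) x hx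

lemma Tpow_smul (c : VC b) (α : ℤ_[p]) (h : Fin d → ℤ_[p]) (n : ℕ) {x : M} (hx : x ∈ c.X1) :
    ∃ y ∈ c.X1, (b.T (α • h) ^ n) x - (b.T h ^ n) y ∈ c.X2 := by
  induction n with
  | zero => exact ⟨x, hx, by simp [c.X2.zero_mem]⟩
  | succ n ih =>
    obtain ⟨y, hy, h1⟩ := ih
    obtain ⟨z, hz, h2⟩ := mem_imS.1 (T_smul_imS c α h hy)
    refine ⟨z, hz, ?_⟩
    have e3 : (b.T (α • h) ^ (n + 1)) x = b.T (α • h) ((b.T (α • h) ^ n) x) := by
      rw [pow_succ']; rfl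
    have e4 : (b.T h ^ (n + 1)) z = (b.T h ^ n) (b.T h z) := by rw [pow_succ]; rfl
    have e5 : b.T (α • h) ((b.T h ^ n) y) = (b.T h ^ n) (b.T (α • h) y) :=
      congrArg (fun f : AddMonoid.End M => f y) ((T_comm b (α • h) h).pow_right n)
    have e6 : (b.T (α • h) ^ (n + 1)) x - (b.T h ^ (n + 1)) z =
        b.T (α • h) ((b.T (α • h) ^ n) x - (b.T h ^ n) y) +
          (b.T h ^ n) (b.T (α • h) y - b.T h z) := by
      rw [e3, e4, map_sub, map_sub, e5]; abel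
    rw [e6]
    exact c.X2.add_mem (T_in_X2 c _ h1) (Tpow_X2 c _ _ h2)

lemma cSmall_smul {c : VC b} {h : Fin d → ℤ_[p]} (α : ℤ_[p]) (h1 : cSmall c h) :
    cSmall c (α • h) := by
  rw [cSmall_iff] at *
  obtain ⟨i, n, h1⟩ := h1
  refine ⟨i, n, fun x hx => ?_⟩
  obtain ⟨y, hy, h2⟩ := Tpow_smul c α h n hx
  have e : (b.T (α • h) ^ n) (p ^ i • x) = (b.T h ^ n) (p ^ i • y) +
      p ^ i • ((b.T (α • h) ^ n) x - (b.T h ^ n) y) := by
    rw [smul_sub, map_nsmul, map_nsmul]; abel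
  rw [e]
  exact (J c _).add_mem (h1 y hy) ((J c _).nsmul_mem (X2_le_J c _ h2) _)

/-- the submodule of small elements -/
def PS (c : VC b) : Submodule ℤ_[p] (Fin d → ℤ_[p]) where
  carrier := {k | k ∈ c.S ∧ cSmall c k}
  zero_mem' := ⟨c.S.zero_mem, by
    rw [cSmall_iff]
    exact ⟨0, 1, fun x _ => by rw [T_zero, pow_one]; exact (J c _).zero_mem⟩⟩
  add_mem' := fun h h' => ⟨c.S.add_mem h.1 h'.1, cSmall_add h.2 h'.2⟩
  smul_mem' := fun α _ h => ⟨c.S.smul_mem α h.1, cSmall_smul α h.2⟩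

lemma mem_PS {c : VC b} {k : Fin d → ℤ_[p]} : k ∈ PS c ↔ k ∈ c.S ∧ cSmall c k := Iff.rfl

/-- the submodule of the elements which act trivially -/
def SX (c : VC b) : Submodule ℤ_[p] (Fin d → ℤ_[p]) :=
  c.S ⊓ subm b (c.X1 : Set M) c.X2 c.c2 c.i2

lemma mem_SX {c : VC b} {k : Fin d → ℤ_[p]} : k ∈ SX c ↔ k ∈ c.S ∧ cTriv c k := by
  unfold SX
  rw [Submodule.mem_inf, mem_subm]
  rfl

/-- the rank -/
def rk (c : VC b) : ℕ := Module.finrank ℤ_[p] c.S - Module.finrank ℤ_[p] (SX c)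

/-- minimal configurations -/
structure Mn (c₀ c : VC b) : Prop where
  reach : Reach c₀ c
  big : ∃ g ∈ c.S, ¬ cSmall c g
  min : ∀ c', Reach c₀ c' → (∃ g ∈ c'.S, ¬ cSmall c' g) → rk c ≤ rk c'

lemma Mn.of_le {c₀ c c' : VC b} (h : Mn c₀ c) (hr : Reach c₀ c')
    (hb : ∃ g ∈ c'.S, ¬ cSmall c' g) (hrk : rk c' ≤ rk c) : Mn c₀ c' :=
  ⟨hr, hb, fun c'' h1 h2 => hrk.trans (h.min c'' h1 h2)⟩

lemma Mn.pm {c₀ c : VC b} (h : Mn c₀ c) : Mn c₀ c.pm := by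
  refine h.of_le h.reach.pm ?_ ?_
  · obtain ⟨g, hg, h1⟩ := h.big
    exact ⟨g, hg, fun h2 => h1 (cSmall_pm.1 h2)⟩
  · unfold rk
    have h1 : Module.finrank ℤ_[p] (SX c) ≤ Module.finrank ℤ_[p] (SX c.pm) := by
      refine Submodule.finrank_mono fun k hk => ?_
      rw [mem_SX] at hk ⊢
      exact ⟨hk.1, cTriv_pm hk.2⟩
    exact Nat.sub_le_sub_left h1 _

lemma Mn.pow {c₀ c : VC b} (h : Mn c₀ c) : Mn c₀ c.pow := by
  have hinj : Function.Injective (LinearMap.lsmul ℤ_[p] (Fin d → ℤ_[p]) (p : ℤ_[p])) := by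
    intro x y hxy
    have h0 : (p : ℤ_[p]) ≠ 0 := by exact_mod_cast (Fact.out : p.Prime).ne_zero
    exact smul_right_injective _ h0 hxy
  have hfr : ∀ N : Submodule ℤ_[p] (Fin d → ℤ_[p]), Module.finrank ℤ_[p]
      (N.map (LinearMap.lsmul ℤ_[p] (Fin d → ℤ_[p]) (p : ℤ_[p]))) = Module.finrank ℤ_[p] N :=
    fun N => (Submodule.equivMapOfInjective _ hinj N).finrank_eq.symm
  refine h.of_le h.reach.pow ?_ ?_
  · obtain ⟨g, hg, h1⟩ := h.big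
    refine ⟨p • g, VC.mem_pow.2 ⟨g, hg, rfl⟩, fun h2 => h1 ?_⟩
    exact cSmall_mul.1 h2
  · unfold rk
    have h1 : Module.finrank ℤ_[p] (SX c) ≤ Module.finrank ℤ_[p] (SX c.pow) := by
      rw [← hfr (SX c)]
      refine Submodule.finrank_mono fun k hk => ?_
      rw [Submodule.mem_map] at hk
      obtain ⟨l, hl, rfl⟩ := hk
      rw [mem_SX] at hl ⊢
      refine ⟨VC.mem_pow.2 ⟨l, hl.1, by rw [LinearMap.lsmul_apply, Nat.cast_smul_eq_nsmul]⟩, ?_⟩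
      have h2 : l ∈ subm b (c.X1 : Set M) c.X2 c.c2 c.i2 := (mem_subm b).2 hl.2
      exact (mem_subm b).1 (Submodule.smul_mem _ (p : ℤ_[p]) h2)
    have h2 : Module.finrank ℤ_[p] c.pow.S = Module.finrank ℤ_[p] c.S := hfr c.S
    rw [h2]
    exact Nat.sub_le_sub_left h1 _

end

end Pool.Agent.Helper39.FullMW
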